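import Mathlib

/-! Shadowing of periodic pseudo-orbits with errors in all steps, abstract form: a cyclic system of
nonlinear equations which is a small perturbation of a linear system with a Lyapunov function. The
estimate is in the sup norm and does not depend on the length of the cycle. -/

open scoped NNReal
open Set Metric Filter

noncomputable section

namespace Pool.Agent.R774.Cl

universe u v

variable {E : Type u} [NormedAddCommGroup E] [NormedSpace ℝ E]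
  {T : Type v} [NormedAddCommGroup T] [NormedSpace ℝ T]

/-- pointwise inequality -/
lemma ptwise {C c c₂ a d p β Δ : ℝ} (hC : 1 ≤ C) (hc : 0 < c) (hc₂ : 0 ≤ c₂)
    (h2 : c₂ ≤ c / (32 * C ^ 4)) (ha : 0 ≤ a) (hd : 0 ≤ d) (hp : 0 ≤ p)
    (e1 : β ≤ C * (C * d + p)) (e2 : a ≤ p + C * β)
    (e3 : c * p ^ 2 ≤ Δ + c₂ * a ^ 2 + C * (C * a * d + d ^ 2)) :
    a ^ 2 / 2 ≤ (8 * C ^ 4 / c) * Δ +
      (64 * C ^ 12 / c ^ 2 + 8 * C ^ 5 / c + 2 * C ^ 6) * d ^ 2 := by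
  have hC0 : 0 < C := by linarith
  have h3 : a ≤ 2 * C ^ 2 * p + C ^ 3 * d := by
    have h4 : C * β ≤ C * (C * (C * d + p)) := mul_le_mul_of_nonneg_left e1 hC0.le
    have h5 : p ≤ C ^ 2 * p := by
      have : 1 ≤ C ^ 2 := one_le_pow₀ hC
      nlinarith
    nlinarith
  have h4 : a ^ 2 ≤ 8 * C ^ 4 * p ^ 2 + 2 * C ^ 6 * d ^ 2 := by
    have h5 : a ^ 2 ≤ (2 * C ^ 2 * p + C ^ 3 * d) ^ 2 := by gcongr
    nlinarith [sq_nonneg (2 * C ^ 2 * p - C ^ 3 * d)]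
  have h5 : p ^ 2 ≤ (Δ + c₂ * a ^ 2 + C * (C * a * d + d ^ 2)) / c := by
    rw [le_div_iff₀ hc]; linarith
  have h6 : (8 * C ^ 4 / c) * (C ^ 2 * a * d) ≤ a ^ 2 / 4 + 64 * C ^ 12 / c ^ 2 * d ^ 2 := by
    have h7 := sq_nonneg (a / 2 - 8 * C ^ 6 * d / c)
    have h8 : (a / 2 - 8 * C ^ 6 * d / c) ^ 2 =
        a ^ 2 / 4 + 64 * C ^ 12 / c ^ 2 * d ^ 2 - (8 * C ^ 4 / c) * (C ^ 2 * a * d) := by
      field_simp
      ring
    linarith
  have h7 : (8 * C ^ 4 / c) * (c₂ * a ^ 2) ≤ a ^ 2 / 4 := by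
    have h8 : (8 * C ^ 4 / c) * (c₂ * a ^ 2) ≤ (8 * C ^ 4 / c) * (c / (32 * C ^ 4) * a ^ 2) := by
      gcongr
    have h9 : (8 * C ^ 4 / c) * (c / (32 * C ^ 4) * a ^ 2) = a ^ 2 / 4 := by
      field_simp
      ring
    linarith
  have h8 : 8 * C ^ 4 * p ^ 2 ≤ (8 * C ^ 4 / c) * Δ + (8 * C ^ 4 / c) * (c₂ * a ^ 2) +
      (8 * C ^ 4 / c) * (C ^ 2 * a * d) + 8 * C ^ 5 / c * d ^ 2 := by
    have h9 : 8 * C ^ 4 * ((Δ + c₂ * a ^ 2 + C * (C * a * d + d ^ 2)) / c) =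
        (8 * C ^ 4 / c) * Δ + (8 * C ^ 4 / c) * (c₂ * a ^ 2) +
          (8 * C ^ 4 / c) * (C ^ 2 * a * d) + 8 * C ^ 5 / c * d ^ 2 := by
      field_simp
      ring
    have h10 : 8 * C ^ 4 * p ^ 2 ≤
        8 * C ^ 4 * ((Δ + c₂ * a ^ 2 + C * (C * a * d + d ^ 2)) / c) := by gcongr
    linarith
  nlinarith

/-- linear data along a pseudo-orbit -/
structure Lin {ι : Type*} (σ : ι ≃ ι) (A P : ι → E →L[ℝ] E) (b : ι → E →L[ℝ] T) (q : ι → E → ℝ)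
    (C c c₂ : ℝ) : Prop where
  hA : ∀ i w, ‖A i w‖ ≤ C * ‖w‖
  hP : ∀ i w, ‖P i w‖ ≤ C * ‖w‖
  hb : ∀ i w, ‖b i w‖ ≤ C * ‖w‖
  hw : ∀ i w, ‖w‖ ≤ ‖P i w‖ + C * ‖b i w‖
  hbP : ∀ i w, b i (P i w) = 0
  hbA : ∀ i w, ‖b i w‖ ≤ C * (‖b (σ i) (A i w)‖ + ‖P i w‖)
  hq : ∀ i w, q i (P i w) + c * ‖P i w‖ ^ 2 ≤ q (σ i) (A i w) + c₂ * ‖w‖ ^ 2
  hqq : ∀ i v w, |q i (v - w) - q i v| ≤ C * (‖v‖ * ‖w‖ + ‖w‖ ^ 2)

/-- the constant in the estimate -/
def Kc (C c : ℝ) : ℝ := 2 * (64 * C ^ 12 / c ^ 2 + 8 * C ^ 5 / c + 2 * C ^ 6)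

lemma Kc_pos {C c : ℝ} (hC : 1 ≤ C) (hc : 0 < c) : 0 < Kc C c := by
  unfold Kc
  have : 0 < C := by linarith
  positivity

section

variable {ι : Type*} [Fintype ι] {σ : ι ≃ ι}

theorem lin_est {A P : ι → E →L[ℝ] E} {b : ι → E →L[ℝ] T} {q : ι → E → ℝ} {C c c₂ : ℝ}
    (h : Lin σ A P b q C c c₂) (hC : 1 ≤ C) (hc : 0 < c) (hc₂ : 0 ≤ c₂)
    (h2 : c₂ ≤ c / (32 * C ^ 4)) (w : ι → E) :
    ∑ i, ‖w i‖ ^ 2 ≤ Kc C c * ∑ i, ‖A i (w i) - P (σ i) (w (σ i))‖ ^ 2 := by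
  have hC0 : 0 < C := by linarith
  have key : ∀ i, ‖w i‖ ^ 2 / 2 ≤
      (8 * C ^ 4 / c) * (q (σ i) (P (σ i) (w (σ i))) - q i (P i (w i))) +
      (64 * C ^ 12 / c ^ 2 + 8 * C ^ 5 / c + 2 * C ^ 6) *
        ‖A i (w i) - P (σ i) (w (σ i))‖ ^ 2 := by
    intro i
    set u := A i (w i) - P (σ i) (w (σ i)) with hu
    refine ptwise hC hc hc₂ h2 (norm_nonneg _) (norm_nonneg _) (norm_nonneg (P i (w i)))
      (β := ‖b i (w i)‖) ?_ (h.hw i _) ?_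
    · have e1 : b (σ i) (A i (w i)) = b (σ i) u := by
        rw [hu, map_sub, h.hbP, sub_zero]
      have e2 := h.hbA i (w i)
      rw [e1] at e2
      have e3 := h.hb (σ i) u
      refine e2.trans ?_
      gcongr
    · have e1 : A i (w i) - u = P (σ i) (w (σ i)) := by
        rw [hu, sub_sub_cancel]
      have e2 := h.hqq (σ i) (A i (w i)) u
      rw [e1] at e2
      have e3 := (abs_le.1 e2).1
      have e4 := h.hq i (w i)
      have e5 : C * (‖A i (w i)‖ * ‖u‖ + ‖u‖ ^ 2) ≤ C * (C * ‖w i‖ * ‖u‖ + ‖u‖ ^ 2) := by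
        have := h.hA i (w i)
        gcongr
      linarith
  have hsum : ∑ i, (q (σ i) (P (σ i) (w (σ i))) - q i (P i (w i))) = 0 := by
    rw [Finset.sum_sub_distrib, Equiv.sum_comp σ (fun i => q i (P i (w i))), sub_self]
  have h3 := Finset.sum_le_sum fun i (_ : i ∈ Finset.univ) => key i
  rw [Finset.sum_add_distrib, ← Finset.mul_sum, hsum, mul_zero, zero_add, ← Finset.mul_sum,
    ← Finset.sum_div] at h3
  unfold Kc
  linarith

/-- the estimate with weights -/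
theorem lin_weight {A P : ι → E →L[ℝ] E} {b : ι → E →L[ℝ] T} {q : ι → E → ℝ} {C c c₂ : ℝ}
    (h : Lin σ A P b q C c c₂) (hC : 1 ≤ C) (hc : 0 < c) (hc₂ : 0 ≤ c₂)
    (h2 : c₂ ≤ c / (32 * C ^ 4)) {ω : ι → ℝ} (hω : ∀ i, 0 < ω i) {θ : ℝ} (hθ0 : 0 ≤ θ)
    (hθ : ∀ i, |ω i - ω (σ i)| ≤ θ * ω (σ i)) (hθ2 : 4 * Kc C c * (θ * C) ^ 2 ≤ 1) (w : ι → E) :
    ∑ i, (ω i * ‖w i‖) ^ 2 ≤
      4 * Kc C c * ∑ i, (ω i * ‖A i (w i) - P (σ i) (w (σ i))‖) ^ 2 := by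
  have hC0 : 0 < C := by linarith
  have hK := Kc_pos hC hc
  have h3 := lin_est h hC hc hc₂ h2 (fun i => ω i • w i)
  have e1 : ∀ i, ‖ω i • w i‖ ^ 2 = (ω i * ‖w i‖) ^ 2 := fun i => by
    rw [norm_smul, Real.norm_eq_abs, abs_of_pos (hω i)]
  have e2 : ∀ i, ‖A i (ω i • w i) - P (σ i) (ω (σ i) • w (σ i))‖ ^ 2 ≤
      2 * (ω i * ‖A i (w i) - P (σ i) (w (σ i))‖) ^ 2 +
        2 * (θ * C) ^ 2 * (ω (σ i) * ‖w (σ i)‖) ^ 2 := by
    intro i
    have e3 : A i (ω i • w i) - P (σ i) (ω (σ i) • w (σ i)) =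
        ω i • (A i (w i) - P (σ i) (w (σ i))) + (ω i - ω (σ i)) • P (σ i) (w (σ i)) := by
      rw [map_smul, map_smul, smul_sub, sub_smul]
      abel
    have e4 : ‖A i (ω i • w i) - P (σ i) (ω (σ i) • w (σ i))‖ ≤
        ω i * ‖A i (w i) - P (σ i) (w (σ i))‖ + θ * C * (ω (σ i) * ‖w (σ i)‖) := by
      rw [e3]
      refine (norm_add_le _ _).trans ?_
      rw [norm_smul, norm_smul, Real.norm_eq_abs, Real.norm_eq_abs, abs_of_pos (hω i)]
      have e5 : |ω i - ω (σ i)| * ‖P (σ i) (w (σ i))‖ ≤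
          (θ * ω (σ i)) * (C * ‖w (σ i)‖) :=
        mul_le_mul (hθ i) (h.hP _ _) (norm_nonneg _) (by
          have := (hω (σ i)).le
          positivity)
      have e6 : (θ * ω (σ i)) * (C * ‖w (σ i)‖) = θ * C * (ω (σ i) * ‖w (σ i)‖) := by ring
      linarith
    have e5 : ‖A i (ω i • w i) - P (σ i) (ω (σ i) • w (σ i))‖ ^ 2 ≤
        (ω i * ‖A i (w i) - P (σ i) (w (σ i))‖ + θ * C * (ω (σ i) * ‖w (σ i)‖)) ^ 2 := by
      gcongr
    refine e5.trans ?_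
    nlinarith [sq_nonneg (ω i * ‖A i (w i) - P (σ i) (w (σ i))‖ -
      θ * C * (ω (σ i) * ‖w (σ i)‖))]
  have h4 := Finset.sum_le_sum fun i (_ : i ∈ Finset.univ) => e2 i
  rw [Finset.sum_add_distrib, ← Finset.mul_sum, ← Finset.mul_sum,
    Equiv.sum_comp σ (fun i => (ω i * ‖w i‖) ^ 2)] at h4
  simp only [e1] at h3
  set S := ∑ i, (ω i * ‖w i‖) ^ 2 with hS
  set U := ∑ i, (ω i * ‖A i (w i) - P (σ i) (w (σ i))‖) ^ 2 with hU
  have hS0 : 0 ≤ S := Finset.sum_nonneg fun i _ => sq_nonneg _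
  have h5 : S ≤ Kc C c * (2 * U + 2 * (θ * C) ^ 2 * S) :=
    h3.trans (mul_le_mul_of_nonneg_left h4 hK.le)
  have h6 : 4 * Kc C c * (θ * C) ^ 2 * S ≤ 1 * S := mul_le_mul_of_nonneg_right hθ2 hS0
  nlinarith

end

/-- the weights on a cycle -/
def wt {n : ℕ} (lam : ℝ) (j i : ZMod n) : ℝ := lam ^ (i - j).valMinAbs.natAbs

lemma natAbs_one {n : ℕ} : (1 : ZMod n).valMinAbs.natAbs ≤ 1 := by
  rcases Nat.eq_zero_or_pos n with h | h
  · subst h
    simp [ZMod.valMinAbs]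
  · have : NeZero n := ⟨h.ne'⟩
    have h1 := ZMod.natAbs_min_of_le_div_two n (1 : ZMod n).valMinAbs 1 (by simp)
      (ZMod.natAbs_valMinAbs_le _)
    exact h1

lemma natAbs_succ {n : ℕ} (a : ZMod n) :
    (a + 1).valMinAbs.natAbs ≤ a.valMinAbs.natAbs + 1 := by
  have h3 := ZMod.natAbs_valMinAbs_add_le a 1
  have h4 : (a.valMinAbs + (1 : ZMod n).valMinAbs).natAbs ≤
      a.valMinAbs.natAbs + (1 : ZMod n).valMinAbs.natAbs := Int.natAbs_add_le _ _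
  have h5 := natAbs_one (n := n)
  omega

lemma natAbs_pred {n : ℕ} (a : ZMod n) :
    a.valMinAbs.natAbs ≤ (a + 1).valMinAbs.natAbs + 1 := by
  have h1 := natAbs_succ (-(a + 1))
  rw [show -(a + 1) + 1 = -a by ring, ZMod.natAbs_valMinAbs_neg, ZMod.natAbs_valMinAbs_neg] at h1
  exact h1

lemma pow_close {lam : ℝ} (h0 : 0 < lam) (h1 : lam < 1) {k l : ℕ} (h2 : k ≤ l + 1)
    (h3 : l ≤ k + 1) : |lam ^ k - lam ^ l| ≤ (lam⁻¹ - 1) * lam ^ l := by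
  have hi : 1 ≤ lam⁻¹ := (one_lt_inv₀ h0).2 h1 |>.le
  have hl : 0 < lam ^ l := pow_pos h0 l
  have h4 : k = l ∨ k = l + 1 ∨ l = k + 1 := by omega
  rcases h4 with h4 | h4 | h4
  · rw [h4, sub_self, abs_zero]
    exact mul_nonneg (by linarith) hl.le
  · rw [h4, pow_succ]
    have e : lam ^ l * lam - lam ^ l = -((1 - lam) * lam ^ l) := by ring
    rw [e, abs_neg, abs_of_nonneg (mul_nonneg (by linarith) hl.le)]
    apply mul_le_mul_of_nonneg_right _ hl.le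
    have h5 : lam * lam⁻¹ = 1 := mul_inv_cancel₀ h0.ne'
    nlinarith
  · have e : lam ^ k - lam ^ l = (lam⁻¹ - 1) * lam ^ l := by
      rw [h4, pow_succ]
      field_simp
    rw [e, abs_of_nonneg (mul_nonneg (by linarith) hl.le)]

lemma wt_close {n : ℕ} {lam : ℝ} (h0 : 0 < lam) (h1 : lam < 1) (j i : ZMod n) :
    |wt lam j i - wt lam j (i + 1)| ≤ (lam⁻¹ - 1) * wt lam j (i + 1) := by
  unfold wt
  have e : i + 1 - j = (i - j) + 1 := by ring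
  rw [e]
  exact pow_close h0 h1 (natAbs_pred _) (natAbs_succ _)

/-- the sum of the squares of the weights -/
def Sw (lam : ℝ) : ℝ := ∑' k : ℤ, (lam ^ k.natAbs) ^ 2

lemma sw_summable {lam : ℝ} (h0 : 0 < lam) (h1 : lam < 1) :
    Summable (fun k : ℤ => (lam ^ k.natAbs) ^ 2) := by
  have h2 : Summable (fun k : ℕ => (lam ^ k) ^ 2) := by
    have h3 : ∀ k : ℕ, (lam ^ k) ^ 2 = (lam ^ 2) ^ k := fun k => by
      rw [← pow_mul, ← pow_mul, mul_comm]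
    simp only [h3]
    exact summable_geometric_of_lt_one (by positivity) (by nlinarith)
  rw [summable_int_iff_summable_nat_and_neg]
  constructor
  · simpa using h2
  · simpa using h2

lemma wt_sum {n : ℕ} [NeZero n] {lam : ℝ} (h0 : 0 < lam) (h1 : lam < 1) (j : ZMod n) :
    ∑ i, wt lam j i ^ 2 ≤ Sw lam := by
  have h2 : ∑ i, wt lam j i ^ 2 = ∑ i : ZMod n, (lam ^ i.valMinAbs.natAbs) ^ 2 := by
    unfold wt
    exact Equiv.sum_comp (Equiv.subRight j) (fun i : ZMod n => (lam ^ i.valMinAbs.natAbs) ^ 2)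
  rw [h2]
  have h3 : ∑ i : ZMod n, (lam ^ i.valMinAbs.natAbs) ^ 2 =
      ∑ k ∈ Finset.univ.image (ZMod.valMinAbs : ZMod n → ℤ), (lam ^ k.natAbs) ^ 2 := by
    rw [Finset.sum_image]
    intro a _ b _ hab
    exact ZMod.injective_valMinAbs hab
  rw [h3]
  exact (sw_summable h0 h1).sum_le_tsum _ (fun _ _ => by positivity)

/-- the contraction rate -/
def lm (C c : ℝ) : ℝ := (1 + 1 / (2 * C * (1 + Kc C c)))⁻¹

lemma lm_pos {C c : ℝ} (hC : 1 ≤ C) (hc : 0 < c) : 0 < lm C c := by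
  have := Kc_pos hC hc
  have : 0 < C := by linarith
  unfold lm
  positivity

lemma lm_lt {C c : ℝ} (hC : 1 ≤ C) (hc : 0 < c) : lm C c < 1 := by
  have := Kc_pos hC hc
  have : 0 < C := by linarith
  unfold lm
  apply inv_lt_one_of_one_lt₀
  have : 0 < 1 / (2 * C * (1 + Kc C c)) := by positivity
  linarith

/-- the constant in the sup norm estimate -/
def Ki (C c : ℝ) : ℝ := 1 + √(4 * Kc C c * Sw (lm C c))

/-- **the estimate in the sup norm** -/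
theorem lin_sup {n : ℕ} [NeZero n] {A P : ZMod n → E →L[ℝ] E} {b : ZMod n → E →L[ℝ] T}
    {q : ZMod n → E → ℝ} {C c c₂ : ℝ}
    (h : Lin (Equiv.addRight (1 : ZMod n)) A P b q C c c₂) (hC : 1 ≤ C) (hc : 0 < c)
    (hc₂ : 0 ≤ c₂) (h2 : c₂ ≤ c / (32 * C ^ 4)) (w : ZMod n → E) {d : ℝ} (hd : 0 ≤ d)
    (hu : ∀ i, ‖A i (w i) - P (i + 1) (w (i + 1))‖ ≤ d) (j : ZMod n) : ‖w j‖ ≤ Ki C c * d := by
  have hC0 : 0 < C := by linarith
  have hK := Kc_pos hC hc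
  have hl0 := lm_pos hC hc
  have hl1 := lm_lt hC hc
  have hθ : (lm C c)⁻¹ - 1 = 1 / (2 * C * (1 + Kc C c)) := by
    unfold lm
    rw [inv_inv]
    ring
  have hθ0 : 0 ≤ (lm C c)⁻¹ - 1 := by rw [hθ]; positivity
  have h3 := lin_weight h hC hc hc₂ h2 (ω := wt (lm C c) j) (fun i => pow_pos hl0 _)
    (θ := (lm C c)⁻¹ - 1) hθ0 (fun i => wt_close hl0 hl1 j i) (by
      rw [hθ]
      have e1 : 1 / (2 * C * (1 + Kc C c)) * C = 1 / (2 * (1 + Kc C c)) := by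
        field_simp
      rw [e1]
      have e2 : 4 * Kc C c * (1 / (2 * (1 + Kc C c))) ^ 2 = Kc C c / (1 + Kc C c) ^ 2 := by
        field_simp
        ring
      rw [e2, div_le_one (by positivity)]
      nlinarith) w
  have h4 : ‖w j‖ ^ 2 ≤ ∑ i, (wt (lm C c) j i * ‖w i‖) ^ 2 := by
    have h5 : (wt (lm C c) j j * ‖w j‖) ^ 2 ≤ ∑ i, (wt (lm C c) j i * ‖w i‖) ^ 2 :=
      Finset.single_le_sum (f := fun i => (wt (lm C c) j i * ‖w i‖) ^ 2)
        (fun i _ => sq_nonneg _) (Finset.mem_univ j)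
    have h6 : wt (lm C c) j j = 1 := by simp [wt]
    rw [h6, one_mul] at h5
    exact h5
  have h5 : ∑ i, (wt (lm C c) j i * ‖A i (w i) - P (i + 1) (w (i + 1))‖) ^ 2 ≤
      Sw (lm C c) * d ^ 2 := by
    calc _ ≤ ∑ i, wt (lm C c) j i ^ 2 * d ^ 2 := by
          refine Finset.sum_le_sum fun i _ => ?_
          rw [mul_pow]
          have := hu i
          gcongr
      _ = (∑ i, wt (lm C c) j i ^ 2) * d ^ 2 := by rw [Finset.sum_mul]
      _ ≤ Sw (lm C c) * d ^ 2 := by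
          have := wt_sum hl0 hl1 j
          gcongr
  have hS : 0 ≤ Sw (lm C c) := tsum_nonneg fun _ => by positivity
  have h6 : ‖w j‖ ^ 2 ≤ (Ki C c * d) ^ 2 := by
    have h7 : ‖w j‖ ^ 2 ≤ 4 * Kc C c * (Sw (lm C c) * d ^ 2) := by
      refine h4.trans (h3.trans ?_)
      exact mul_le_mul_of_nonneg_left h5 (by positivity)
    have h8 : 4 * Kc C c * Sw (lm C c) ≤ Ki C c ^ 2 := by
      unfold Ki
      have h9 : 0 ≤ 4 * Kc C c * Sw (lm C c) := by positivity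
      have h10 := Real.sq_sqrt h9
      have h11 := Real.sqrt_nonneg (4 * Kc C c * Sw (lm C c))
      nlinarith
    rw [mul_pow]
    calc ‖w j‖ ^ 2 ≤ 4 * Kc C c * Sw (lm C c) * d ^ 2 := by linarith
      _ ≤ Ki C c ^ 2 * d ^ 2 := by gcongr
  have hKi : 0 ≤ Ki C c := by unfold Ki; positivity
  exact (abs_le_of_sq_le_sq' h6 (by positivity)).2

lemma Ki_pos (C c : ℝ) : 0 < Ki C c := by unfold Ki; positivity

/-- **Shadowing, abstract form** -/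
theorem shadow {n : ℕ} [NeZero n] [FiniteDimensional ℝ E] {A P : ZMod n → E →L[ℝ] E}
    {b : ZMod n → E →L[ℝ] T} {q : ZMod n → E → ℝ} {C c c₂ : ℝ}
    (h : Lin (Equiv.addRight (1 : ZMod n)) A P b q C c c₂) (hC : 1 ≤ C) (hc : 0 < c)
    (hc₂ : 0 ≤ c₂) (h2 : c₂ ≤ c / (32 * C ^ 4))
    {Γ : ZMod n → E → E} {c₁ ε : ℝ} (hc₁ : 0 ≤ c₁) (hε : 0 < ε)
    (hΓ : ∀ i w w', ‖w‖ ≤ ε → ‖w'‖ ≤ ε → ‖Γ i w - Γ i w' - A i (w - w')‖ ≤ c₁ * ‖w - w'‖)
    {r : ℝ} (hr : r ≤ ((Ki C c)⁻¹ - c₁) * ε) (hr0 : 0 ≤ r) (h0 : ∀ i, ‖Γ i 0‖ ≤ r) :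
    ∃ w : ZMod n → E, (∀ i, ‖w i‖ ≤ ε) ∧ ∀ i, Γ i (w i) = P (i + 1) (w (i + 1)) := by
  classical
  have hK0 := Ki_pos C c
  let f : (ZMod n → E) → (ZMod n → E) := fun w j => Γ (j - 1) (w (j - 1)) - P j (w j)
  let L₀ : (ZMod n → E) →ₗ[ℝ] (ZMod n → E) :=
    { toFun := fun w j => A (j - 1) (w (j - 1)) - P j (w j)
      map_add' := fun w w' => by
        ext j
        simp only [Pi.add_apply, map_add]
        abel
      map_smul' := fun a w => by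
        ext j
        simp only [Pi.smul_apply, map_smul, RingHom.id_apply, smul_sub] }
  let L : (ZMod n → E) →L[ℝ] (ZMod n → E) := LinearMap.toContinuousLinearMap L₀
  have hLa : ∀ w j, L w j = A (j - 1) (w (j - 1)) - P j (w j) := fun w j => rfl
  have hfa : ∀ w j, f w j = Γ (j - 1) (w (j - 1)) - P j (w j) := fun w j => rfl
  have hest : ∀ w, ‖w‖ ≤ Ki C c * ‖L w‖ := by
    intro w
    rw [pi_norm_le_iff_of_nonneg (by positivity)]
    intro j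
    refine lin_sup h hC hc hc₂ h2 w (norm_nonneg _) (fun i => ?_) j
    have h3 := hLa w (i + 1)
    rw [add_sub_cancel_right] at h3
    rw [← h3]
    exact norm_le_pi_norm (L w) (i + 1)
  have hinj : Function.Injective L₀ := by
    rw [injective_iff_map_eq_zero]
    intro w hw
    have h3 := hest w
    have h4 : L w = 0 := hw
    rw [h4, norm_zero, mul_zero] at h3
    exact norm_le_zero_iff.1 h3
  have hsurj : Function.Surjective L₀ := LinearMap.injective_iff_surjective.1 hinj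
  choose g hg using hsurj
  let N : L.NonlinearRightInverse :=
    { toFun := g
      nnnorm := ⟨Ki C c, hK0.le⟩
      bound' := fun y => by
        have h3 := hest (g y)
        have h4 : L (g y) = y := hg y
        rw [h4] at h3
        exact h3
      right_inv' := fun y => hg y }
  have happ : ApproximatesLinearOn f L (closedBall 0 ε) ⟨c₁, hc₁⟩ := by
    intro w hw w' hw'
    rw [mem_closedBall_zero_iff] at hw hw'
    rw [pi_norm_le_iff_of_nonneg (by positivity)]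
    intro j
    have h4 := hΓ (j - 1) (w (j - 1)) (w' (j - 1)) ((norm_le_pi_norm w _).trans hw)
      ((norm_le_pi_norm w' _).trans hw')
    have h5 : (f w - f w' - L (w - w')) j =
        Γ (j - 1) (w (j - 1)) - Γ (j - 1) (w' (j - 1)) - A (j - 1) (w (j - 1) - w' (j - 1)) := by
      simp only [Pi.sub_apply, hfa, hLa, map_sub]
      abel
    rw [h5]
    refine h4.trans ?_
    have h6 : ‖w (j - 1) - w' (j - 1)‖ ≤ ‖w - w'‖ := norm_le_pi_norm (w - w') (j - 1)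
    exact mul_le_mul_of_nonneg_left h6 hc₁
  have hso := happ.surjOn_closedBall_of_nonlinearRightInverse N hε.le subset_rfl
  have hf0 : ‖f 0‖ ≤ r := by
    rw [pi_norm_le_iff_of_nonneg hr0]
    intro j
    rw [hfa]
    simpa using h0 (j - 1)
  have hmem : (0 : ZMod n → E) ∈
      closedBall (f 0) ((((N.nnnorm : ℝ≥0) : ℝ)⁻¹ - ((⟨c₁, hc₁⟩ : ℝ≥0) : ℝ)) * ε) := by
    rw [mem_closedBall, dist_eq_norm, zero_sub, norm_neg]
    exact hf0.trans hr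
  obtain ⟨w, hw, hw0⟩ := hso hmem
  rw [mem_closedBall_zero_iff] at hw
  refine ⟨fun i => w i, fun i => (norm_le_pi_norm w i).trans hw, fun i => ?_⟩
  have h3 : f w (i + 1) = 0 := by rw [hw0]; rfl
  rw [hfa, add_sub_cancel_right, sub_eq_zero] at h3
  exact h3

end Pool.Agent.R774.Cl
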